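import Pool.Agent.Run7.h96.IX.Stm

/-!
Piece RD of project IX (helper96): every normalised achievable point is asymptotically realisable
(powers of a construction, padding by elements outside all sets).
-/

set_option autoImplicit false

open Finset Filter Topology

namespace Run7.h232.IX

open Run7.h96.IX

theorem t_RD (hPAD : S_PAD) : S_RD := by
  obtain ⟨-, hpad, hpow, -⟩ := hPAD
  rintro p ⟨n₁, P, K, lam, hn₁, hP, hK, hA, rfl⟩
  intro ε hε
  have hn : (0 : ℝ) < n₁ := by exact_mod_cast hn₁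
  have hlP : 0 ≤ Real.logb 2 (P : ℝ) := Real.logb_nonneg (by norm_num) (by exact_mod_cast hP)
  have hlK : 0 ≤ Real.logb 2 (K : ℝ) := Real.logb_nonneg (by norm_num) (by exact_mod_cast hK)
  have hlam : (0 : ℝ) ≤ lam := Nat.cast_nonneg _
  refine ⟨⌈(Real.logb 2 P + lam) / ε⌉₊, fun n hn0 => ?_⟩
  have hbig : Real.logb 2 P + lam ≤ ε * n := by
    have h1 : (Real.logb 2 P + lam) / ε ≤ n := le_trans (Nat.le_ceil _) (by exact_mod_cast hn0)
    rw [div_le_iff₀ hε] at h1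
    linarith
  obtain ⟨q, r, hqr, hrn⟩ : ∃ q r : ℕ, n = q * n₁ + r ∧ r < n₁ :=
    ⟨n / n₁, n % n₁, by rw [Nat.mul_comm]; exact (Nat.div_add_mod n n₁).symm, Nat.mod_lt _ hn₁⟩
  have hnR : (n : ℝ) = q * n₁ + r := by rw [hqr]; push_cast; ring
  have hrR : (r : ℝ) ≤ n₁ := by exact_mod_cast hrn.le
  have hr0 : (0 : ℝ) ≤ r := Nat.cast_nonneg _
  have hn0' : (0 : ℝ) ≤ ε * n := mul_nonneg hε.le (Nat.cast_nonneg _)
  have hAch : Ach n (P ^ q) (K ^ q) (q * lam + 0) := by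
    rw [hqr]
    exact hpad _ _ _ _ _ 0 (Nat.zero_le _) (hpow _ _ _ _ q hA)
  refine ⟨P ^ q, K ^ q, q * lam + 0, Nat.one_le_pow _ _ hP, Nat.one_le_pow _ _ hK, hAch,
    ?_, ?_, ?_⟩
  · show (Real.logb 2 P / n₁ - ε) * (n : ℝ) ≤ Real.logb 2 ((P ^ q : ℕ) : ℝ)
    rw [Nat.cast_pow, Real.logb_pow]
    have h1 : Real.logb 2 P / n₁ * n₁ = Real.logb 2 P := div_mul_cancel₀ _ hn.ne'
    have h2 : 0 ≤ Real.logb 2 P / n₁ := div_nonneg hlP hn.le
    have h3 : Real.logb 2 P / n₁ * r ≤ Real.logb 2 P := by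
      calc Real.logb 2 P / n₁ * r ≤ Real.logb 2 P / n₁ * n₁ := mul_le_mul_of_nonneg_left hrR h2
        _ = Real.logb 2 P := h1
    have h4 : (Real.logb 2 P / n₁ - ε) * (n : ℝ) =
        q * (Real.logb 2 P / n₁ * n₁) + Real.logb 2 P / n₁ * r - ε * n := by
      rw [sub_mul]
      congr 1
      rw [hnR]
      ring
    rw [h4, h1]
    linarith
  · show 2 * Real.logb 2 ((K ^ q : ℕ) : ℝ) ≤ (2 * Real.logb 2 K / n₁ + ε) * (n : ℝ)
    rw [Nat.cast_pow, Real.logb_pow]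
    have h1 : 2 * Real.logb 2 K / n₁ * n₁ = 2 * Real.logb 2 K := div_mul_cancel₀ _ hn.ne'
    have h2 : 0 ≤ 2 * Real.logb 2 K / n₁ := div_nonneg (by linarith) hn.le
    have h3 : 0 ≤ 2 * Real.logb 2 K / n₁ * r := mul_nonneg h2 hr0
    have h4 : (2 * Real.logb 2 K / n₁ + ε) * (n : ℝ) =
        q * (2 * Real.logb 2 K / n₁ * n₁) + 2 * Real.logb 2 K / n₁ * r + ε * n := by
      rw [add_mul]
      congr 1
      rw [hnR]
      ring
    rw [h4, h1]
    linarith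
  · show |((q * lam + 0 : ℕ) : ℝ) - (lam : ℝ) / n₁ * (n : ℝ)| ≤ ε * n
    have h1 : (lam : ℝ) / n₁ * n₁ = lam := div_mul_cancel₀ _ hn.ne'
    have h2 : 0 ≤ (lam : ℝ) / n₁ := div_nonneg hlam hn.le
    have h3 : (lam : ℝ) / n₁ * r ≤ lam := by
      calc (lam : ℝ) / n₁ * r ≤ (lam : ℝ) / n₁ * n₁ := mul_le_mul_of_nonneg_left hrR h2
        _ = lam := h1
    have h3' : 0 ≤ (lam : ℝ) / n₁ * r := mul_nonneg h2 hr0
    have h4 : (lam : ℝ) / n₁ * (n : ℝ) = q * ((lam : ℝ) / n₁ * n₁) + (lam : ℝ) / n₁ * r := by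
      rw [hnR]
      ring
    rw [h4, h1]
    push_cast
    rw [abs_le]
    constructor <;> linarith

end Run7.h232.IX
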